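import Pool.Agent.P.MP_af6acb_co.Real

namespace Pool.Agent.Results.MP_af6acb_co.MinFatness

open Pool.Agent.P.MP_af6acb_co

/-- The f-vectors of 4-polytopes on the hyperplane `2 (f_1 + f_2) + 10 = 5 (f_0 + f_3)`. -/
theorem result (f : Fin 4 → ℤ) (hf : 2 * (f 1 + f 2) + 10 = 5 * (f 0 + f 3)) :
    f ∈ fVectors ↔ ∃ i j : ℕ,
      f = ![5, 10, 10, 5] + (i : ℤ) • ![1, 4, 6, 3] + (j : ℤ) • ![3, 6, 4, 1] :=
  min_fatness f hf

end Pool.Agent.Results.MP_af6acb_co.MinFatness
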