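import Pool.Agent.P.MP_af6acb_co.Semi

namespace Pool.Agent.Results.MP_af6acb_co.NotSemialgebraic

open Pool.Agent.P.MP_af6acb_co

/-- The set of f-vectors of 4-polytopes is not a semialgebraic set of lattice points: it is not
the intersection of a real semialgebraic set with an affine sublattice of the integer lattice. -/
theorem result :
    ¬ ∃ (S : Set (Fin 4 → ℝ)) (L : AffineSubspace ℤ (Fin 4 → ℤ)), IsSemialgebraic S ∧
      fVectors = {f | f ∈ L ∧ (fun k => (f k : ℝ)) ∈ S} :=
  not_semialgebraic

end Pool.Agent.Results.MP_af6acb_co.NotSemialgebraic
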