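import Pool.Agent.P.MP_af6acb_co.Reg.All

namespace Pool.Agent.Results.MP_af6acb_co.Region

open Pool.Agent.P.MP_af6acb_co

/-- The f-vectors of 4-polytopes in the region of fatness below ten, away from the two sides of
few vertices and of few facets. -/
theorem result (ε : ℝ) (hε : 0 < ε) : ∃ C : ℝ, ∀ f : Fin 4 → ℤ,
    (f 1 : ℝ) + f 2 ≤ (10 - ε) * (f 0 + f 3) →
    ε * ((f 2 : ℝ) - 2 * f 3) + √(2 * (f 1 : ℝ)) + C ≤ f 0 →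
    ε * ((f 1 : ℝ) - 2 * f 0) + √(2 * (f 2 : ℝ)) + C ≤ f 3 →
    (f ∈ fVectors ↔ f 0 + f 2 = f 1 + f 3 ∧ 2 * f 3 ≤ f 2 ∧ 2 * f 0 ≤ f 1 ∧
      5 * (f 0 + f 3) ≤ 2 * (f 1 + f 2) + 10 ∧
      ¬ (2 * (f 1 + f 2) + 10 = 5 * (f 0 + f 3) ∧ Odd (f 2)) ∧
      ¬ (2 * (f 1 + f 2) + 10 = 5 * (f 0 + f 3) + 1 ∧
        (f 2 = 2 * f 3 + 1 ∨ f 2 = 2 * f 3 + 3 ∨ f 1 = 2 * f 0 + 1 ∨ f 1 = 2 * f 0 + 3))) :=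
  Reg.all_MAIQ ε hε

end Pool.Agent.Results.MP_af6acb_co.Region
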